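import Mathlib

open Topology Filter Set
open scoped Real ComplexConjugate

namespace Pool.Agent.Results.MP_5d0005_an.NoCurve

noncomputable section

/-- `γ` is a `C^∞` strictly convex closed plane curve of length `L`, parametrised by arc length
and counterclockwise: every other point of the curve lies strictly to the left of the tangent line
at `γ s`; the curvature is moreover required to be positive. -/
structure IsOval (γ : ℝ → ℂ) (L : ℝ) : Prop where
  pos : 0 < L
  smooth : ContDiff ℝ ((⊤ : ℕ∞) : WithTop ℕ∞) γ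
  periodic : ∀ s, γ (s + L) = γ s
  unit_speed : ∀ s, ‖deriv γ s‖ = 1
  convex : ∀ s s', (∀ k : ℤ, s' ≠ s + k * L) → 0 < (conj (deriv γ s) * (γ s' - γ s)).im
  curvature_pos : ∀ s, 0 < (conj (deriv γ s) * deriv (deriv γ) s).im

/-- The chord of `γ` leaving `γ s` at angle `α` with the tangent arrives at `γ s₁` with angle
`α₁`. -/
def Chord (γ : ℝ → ℂ) (L s α s₁ α₁ : ℝ) : Prop :=
  s < s₁ ∧ s₁ < s + L ∧ ∃ ℓ : ℝ, 0 < ℓ ∧
    γ s₁ - γ s = ℓ * (Complex.exp (α * Complex.I) * deriv γ s) ∧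
    γ s₁ - γ s = ℓ * (Complex.exp (-(α₁ * Complex.I)) * deriv γ s₁)

/-- The phase cylinder `{(s, α)}`, `s ∈ ℝ/Lℤ`, `α ∈ (0, π)`. -/
abbrev Phase (L : ℝ) : Type := AddCircle L × Ioo (0:ℝ) π

/-- `T` is the map `T₂ ∘ T₁` of the coin of height `d` over `γ`:
`T (s, α) = (s₁ + d cot α₁, α₁)` where `(s₁, α₁) = T₁ (s, α)`. -/
def IsCoinMap (γ : ℝ → ℂ) (L d : ℝ) (T : Phase L → Phase L) : Prop :=
  ∀ (s : ℝ) (α : Ioo (0:ℝ) π), ∃ (s₁ : ℝ) (α₁ : Ioo (0:ℝ) π), Chord γ L s α s₁ α₁ ∧
    T ((s : AddCircle L), α) = (((s₁ + d * Real.cot α₁ : ℝ) : AddCircle L), α₁)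

/-- A rotational invariant curve: a simple closed curve in the phase cylinder which is not
contractible and is mapped onto itself by `T`. -/
def IsRotationalInvariantCurve {L : ℝ} (T : Phase L → Phase L) (Γ : Set (Phase L)) : Prop :=
  (∃ c : C(UnitAddCircle, Phase L), Function.Injective c ∧ ¬ c.Nullhomotopic ∧ range c = Γ) ∧
    T '' Γ = Γ

/-! ### Trigonometry -/

/-- radius of curvature as a function of the tangent angle -/
def rho (θ : ℝ) : ℝ := 1 + 1 / 2 * Real.cos (2 * θ)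

lemma rho_pos (θ : ℝ) : 0 < rho θ := by
  unfold rho; linarith [Real.neg_one_le_cos (2 * θ)]

lemma rho_le (θ : ℝ) : rho θ ≤ 3 / 2 := by
  unfold rho; linarith [Real.cos_le_one (2 * θ)]

def P (φ v : ℝ) : ℝ := (1 - Real.cos v) +
  1 / 2 * Real.cos (2 * φ) * (Real.cos v - 1 + 2 / 3 * (1 - Real.cos v ^ 3)) -
  1 / 3 * Real.sin (2 * φ) * Real.sin v ^ 3

lemma continuous_P : Continuous fun q : ℝ × ℝ => P q.1 q.2 := by
  unfold P; fun_prop

lemma P_zero (φ : ℝ) : P φ 0 = 0 := by simp [P]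

lemma P_neg (φ v : ℝ) : P φ (-v) = P (-φ) v := by
  unfold P
  rw [Real.cos_neg, Real.sin_neg, show 2 * -φ = -(2 * φ) by ring, Real.cos_neg, Real.sin_neg]
  ring

lemma P_pi (φ : ℝ) : P (-φ) π = P φ π := by
  unfold P
  rw [show 2 * -φ = -(2 * φ) by ring, Real.cos_neg, Real.sin_neg, Real.sin_pi]
  ring

lemma hasDerivAt_P (φ v : ℝ) : HasDerivAt (P φ) (rho (φ + v) * Real.sin v) v := by
  have hc := Real.hasDerivAt_cos v
  have hs := Real.hasDerivAt_sin v
  have h1 := hc.const_sub 1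
  have h2 := ((hc.sub_const 1).add ((((hc.pow 3).const_sub 1)).const_mul (2 / 3))).const_mul
    (1 / 2 * Real.cos (2 * φ))
  have h3 := (hs.pow 3).const_mul (1 / 3 * Real.sin (2 * φ))
  have h4 := (h1.add h2).sub h3
  have hd : HasDerivAt (P φ) _ v := h4
  convert! hd using 1
  unfold rho
  rw [show 2 * (φ + v) = 2 * φ + 2 * v by ring, Real.cos_add, Real.cos_two_mul v,
    Real.sin_two_mul v]
  push_cast
  ring

lemma P_factor (φ v : ℝ) : (1 - Real.cos v) / 2 ≤ P φ v := by
  set c := Real.cos v with hc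
  set s := Real.sin v with hs
  set A := Real.cos (2 * φ) with hA
  set D := Real.sin (2 * φ) with hD
  have hcs : s ^ 2 + c ^ 2 = 1 := Real.sin_sq_add_cos_sq v
  have hAD : D ^ 2 + A ^ 2 = 1 := Real.sin_sq_add_cos_sq (2 * φ)
  have hc1 : c ≤ 1 := Real.cos_le_one v
  have hc2 : -1 ≤ c := Real.neg_one_le_cos v
  have hP : P φ v = (1 - c) * (1 + (A * ((-1 + 2 * c + 2 * c ^ 2) / 6) - D * ((1 + c) * s / 3))) := by
    unfold P
    rw [← hc, ← hs, ← hA, ← hD]
    have hs3 : s ^ 3 = s * ((1 - c) * (1 + c)) := by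
      have : s ^ 2 = (1 - c) * (1 + c) := by linarith
      rw [pow_succ, this]; ring
    rw [hs3]; ring
  have hab : ((-1 + 2 * c + 2 * c ^ 2) / 6) ^ 2 + ((1 + c) * s / 3) ^ 2 ≤ 1 / 4 := by
    have hs2 : s ^ 2 = 1 - c ^ 2 := by linarith
    have : ((-1 + 2 * c + 2 * c ^ 2) / 6) ^ 2 + ((1 + c) * s / 3) ^ 2 = (5 + 4 * c) / 36 := by
      have e : ((1 + c) * s / 3) ^ 2 = (1 + c) ^ 2 * s ^ 2 / 9 := by ring
      rw [e, hs2]; ring
    rw [this]; linarith
  have hcs2 : (A * ((-1 + 2 * c + 2 * c ^ 2) / 6) - D * ((1 + c) * s / 3)) ^ 2 ≤ (1 / 2) ^ 2 := by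
    set a := (-1 + 2 * c + 2 * c ^ 2) / 6
    set b := (1 + c) * s / 3
    have h1 : (A * a - D * b) ^ 2 + (A * b + D * a) ^ 2 = (D ^ 2 + A ^ 2) * (a ^ 2 + b ^ 2) := by ring
    rw [hAD, one_mul] at h1
    nlinarith [sq_nonneg (A * b + D * a)]
  have hlow := (abs_le_of_sq_le_sq' hcs2 (by norm_num)).1
  rw [hP]
  nlinarith

lemma P_pos {φ v : ℝ} (h : Real.cos v ≠ 1) : 0 < P φ v := by
  have h1 := P_factor φ v
  have h2 : Real.cos v < 1 := lt_of_le_of_ne (Real.cos_le_one v) h
  linarith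

lemma P_strictMono (φ : ℝ) : StrictMonoOn (P φ) (Icc 0 π) := by
  refine strictMonoOn_of_deriv_pos (convex_Icc 0 π)
    (fun v _ => (hasDerivAt_P φ v).continuousAt.continuousWithinAt) fun v hv => ?_
  rw [interior_Icc] at hv
  rw [(hasDerivAt_P φ v).deriv]
  exact mul_pos (rho_pos _) (Real.sin_pos_of_mem_Ioo hv)

lemma hasDerivAt_cot {v : ℝ} (h : Real.sin v ≠ 0) :
    HasDerivAt Real.cot (-(1 / Real.sin v ^ 2)) v := by
  have h1 := (Real.hasDerivAt_cos v).div (Real.hasDerivAt_sin v) h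
  have h2 : Real.cot = fun x => Real.cos x / Real.sin x := by
    ext x; exact Real.cot_eq_cos_div_sin x
  rw [h2]
  convert! h1 using 1
  have := Real.sin_sq_add_cos_sq v
  field_simp
  nlinarith

lemma cot_strictAnti : StrictAntiOn Real.cot (Ioo 0 π) := by
  refine strictAntiOn_of_deriv_neg (convex_Ioo 0 π)
    (fun v hv => (hasDerivAt_cot (Real.sin_pos_of_mem_Ioo hv).ne').continuousAt.continuousWithinAt)
    fun v hv => ?_
  rw [interior_Ioo] at hv
  have := Real.sin_pos_of_mem_Ioo hv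
  rw [(hasDerivAt_cot this.ne').deriv]
  have : 0 < 1 / Real.sin v ^ 2 := by positivity
  linarith

/-- forward kick -/
lemma kick {φ α β : ℝ} (hα : α ∈ Ioo 0 π) (hβ : β ∈ Ioo 0 π) (h : P φ β = P φ (-α))
    (hφ : Real.sin (2 * φ) ≤ -(1 / 2)) : Real.cot α + 7 / 50 ≤ Real.cot β := by
  have hsα := Real.sin_pos_of_mem_Ioo hα
  have hsβ := Real.sin_pos_of_mem_Ioo hβ
  have hdiff : P φ α - P φ (-α) = -(2 / 3) * Real.sin (2 * φ) * Real.sin α ^ 3 := by
    rw [P_neg]
    unfold P
    rw [show 2 * -φ = -(2 * φ) by ring, Real.cos_neg, Real.sin_neg]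
    ring
  have hge : 1 / 3 * Real.sin α ^ 3 ≤ P φ α - P φ β := by
    rw [h, hdiff]
    have : 0 < Real.sin α ^ 3 := by positivity
    nlinarith
  have hlt : β < α := by
    have h1 : P φ β < P φ α := by
      have : 0 < Real.sin α ^ 3 := by positivity
      linarith
    exact (P_strictMono φ).lt_iff_lt ⟨hβ.1.le, hβ.2.le⟩ ⟨hα.1.le, hα.2.le⟩ |>.1 h1
  by_contra hcon
  push Not at hcon
  set k := Real.cot β - Real.cot α with hk
  have hk0 : 0 < k := by
    have := cot_strictAnti hβ hα hlt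
    linarith
  have hk1 : k < 7 / 50 := by linarith
  have hsin : ∀ v ∈ Icc β α, Real.sin v ≤ (1 + k) * Real.sin α := by
    intro v hv
    have hv' : v ∈ Ioo 0 π := ⟨lt_of_lt_of_le hβ.1 hv.1, lt_of_le_of_lt hv.2 hα.2⟩
    have hsv := Real.sin_pos_of_mem_Ioo hv'
    have h1 : Real.sin (α - v) = (Real.cot v - Real.cot α) * (Real.sin α * Real.sin v) := by
      rw [Real.cot_eq_cos_div_sin, Real.cot_eq_cos_div_sin, Real.sin_sub]
      field_simp
    have h2 : Real.cot v ≤ Real.cot β := cot_strictAnti.antitoneOn hβ hv' hv.1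
    have h3 : Real.sin v = Real.sin α * Real.cos (α - v) - Real.cos α * Real.sin (α - v) := by
      rw [← Real.sin_sub]; congr 1; ring
    have h4 : 0 ≤ Real.sin (α - v) := by
      apply Real.sin_nonneg_of_nonneg_of_le_pi
      · linarith [hv.2]
      · linarith [hv'.1, hα.2]
    have h5 : Real.sin (α - v) ≤ k * Real.sin α := by
      rw [h1]
      have e1 : Real.cot v - Real.cot α ≤ k := by linarith
      have e2 : Real.sin α * Real.sin v ≤ Real.sin α := by
        nlinarith [Real.sin_le_one v]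
      have e3 : 0 < Real.sin α * Real.sin v := by positivity
      calc (Real.cot v - Real.cot α) * (Real.sin α * Real.sin v)
          ≤ k * (Real.sin α * Real.sin v) := by gcongr
        _ ≤ k * Real.sin α := by gcongr
    have h6 : -Real.cos α * Real.sin (α - v) ≤ Real.sin (α - v) := by
      nlinarith [Real.neg_one_le_cos α]
    have h7 : Real.sin α * Real.cos (α - v) ≤ Real.sin α := by
      nlinarith [Real.cos_le_one (α - v)]
    rw [h3]
    nlinarith
  set Cc : ℝ := 3 / 2 * ((1 + k) * Real.sin α) ^ 3 with hCc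
  have hmono : MonotoneOn (fun v => Cc * (-Real.cot v) - P φ v) (Icc β α) := by
    have hder : ∀ v ∈ Icc β α, HasDerivAt (fun v => Cc * (-Real.cot v) - P φ v)
        (Cc * (1 / Real.sin v ^ 2) - rho (φ + v) * Real.sin v) v := by
      intro v hv
      have hv' : v ∈ Ioo 0 π := ⟨lt_of_lt_of_le hβ.1 hv.1, lt_of_le_of_lt hv.2 hα.2⟩
      have hsv := Real.sin_pos_of_mem_Ioo hv'
      have h1 := ((hasDerivAt_cot hsv.ne').neg.const_mul Cc).sub (hasDerivAt_P φ v)
      rw [neg_neg] at h1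
      exact h1
    refine monotoneOn_of_deriv_nonneg (convex_Icc β α)
      (fun v hv => (hder v hv).continuousAt.continuousWithinAt)
      (fun v hv => ((hder v (interior_subset hv)).differentiableAt).differentiableWithinAt) ?_
    intro v hv
    have hv2 := interior_subset hv
    rw [(hder v hv2).deriv]
    have hv' : v ∈ Ioo 0 π := ⟨lt_of_lt_of_le hβ.1 hv2.1, lt_of_le_of_lt hv2.2 hα.2⟩
    have hsv := Real.sin_pos_of_mem_Ioo hv'
    have h1 := hsin v hv2
    have h2 : Real.sin v ^ 3 ≤ ((1 + k) * Real.sin α) ^ 3 := by gcongr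
    have h3 : rho (φ + v) * Real.sin v ≤ 3 / 2 * Real.sin v := by
      gcongr; exact rho_le _
    have h4 : 3 / 2 * Real.sin v ≤ Cc * (1 / Real.sin v ^ 2) := by
      rw [mul_one_div, le_div_iff₀ (by positivity)]
      have : 3 / 2 * Real.sin v * Real.sin v ^ 2 = 3 / 2 * Real.sin v ^ 3 := by ring
      rw [this, hCc]
      gcongr
    linarith
  have h1 := hmono (left_mem_Icc.2 hlt.le) (right_mem_Icc.2 hlt.le) hlt.le
  simp only at h1
  have h2 : 1 / 3 * Real.sin α ^ 3 ≤ Cc * k := by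
    have : Cc * k = Cc * (-Real.cot α) - Cc * (-Real.cot β) := by rw [hk]; ring
    linarith
  have h3 : Cc * k = Real.sin α ^ 3 * (3 / 2 * (1 + k) ^ 3 * k) := by rw [hCc]; ring
  rw [h3] at h2
  have h4 : (1:ℝ) / 3 ≤ 3 / 2 * (1 + k) ^ 3 * k := by
    have h5 : 0 < Real.sin α ^ 3 := by positivity
    by_contra h6
    push Not at h6
    nlinarith
  have h5 : (1 + k) ^ 3 ≤ (57 / 50) ^ 3 := by
    gcongr
    linarith
  nlinarith

/-- backward kick -/
lemma kick' {φ α β : ℝ} (hα : α ∈ Ioo 0 π) (hβ : β ∈ Ioo 0 π) (h : P φ β = P φ (-α))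
    (hφ : 1 / 2 ≤ Real.sin (2 * φ)) : Real.cot β + 7 / 50 ≤ Real.cot α := by
  refine kick (φ := -φ) hβ hα ?_ ?_
  · rw [← P_neg, ← h, P_neg, neg_neg]
  · rw [show 2 * -φ = -(2 * φ) by ring, Real.sin_neg]
    linarith

/-! ### The curve -/

/-- the curve parametrised by its tangent angle -/
def Xc (θ : ℝ) : ℂ := -Complex.I * Complex.exp (θ * Complex.I)
  - Complex.I / 12 * Complex.exp (3 * θ * Complex.I) + Complex.I / 4 * Complex.exp (-θ * Complex.I)

lemma hasDerivAt_exp_mul (c : ℂ) (θ : ℝ) :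
    HasDerivAt (fun θ : ℝ => Complex.exp (c * θ * Complex.I))
      (c * Complex.I * Complex.exp (c * θ * Complex.I)) θ := by
  have h1 : HasDerivAt (fun θ : ℝ => c * (θ : ℂ) * Complex.I) (c * Complex.I) θ := by
    have := ((Complex.ofRealCLM.hasDerivAt (x := θ)).const_mul c).mul_const Complex.I
    simpa using this
  have h2 := h1.cexp
  rw [mul_comm] at h2
  exact h2

lemma rho_eq (θ : ℝ) : (rho θ : ℂ) = 1 + 1 / 4 * Complex.exp (2 * θ * Complex.I) +
    1 / 4 * Complex.exp (-2 * θ * Complex.I) := by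
  unfold rho
  push_cast
  rw [Complex.cos]
  have e : -(2 * (θ:ℂ)) * Complex.I = -2 * θ * Complex.I := by ring
  rw [e]
  ring

lemma hasDerivAt_Xc (θ : ℝ) :
    HasDerivAt Xc ((rho θ : ℂ) * Complex.exp (θ * Complex.I)) θ := by
  have h1 := (hasDerivAt_exp_mul 1 θ).const_mul (-Complex.I)
  have h3 := (hasDerivAt_exp_mul 3 θ).const_mul (Complex.I / 12)
  have hm := (hasDerivAt_exp_mul (-1) θ).const_mul (Complex.I / 4)
  have h := (h1.sub h3).add hm
  have hf : (fun θ : ℝ => -Complex.I * Complex.exp (1 * (θ:ℂ) * Complex.I) -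
      Complex.I / 12 * Complex.exp (3 * (θ:ℂ) * Complex.I) +
      Complex.I / 4 * Complex.exp (-1 * (θ:ℂ) * Complex.I)) = Xc := by
    ext θ
    unfold Xc
    rw [one_mul, neg_one_mul]
  have h' : HasDerivAt Xc (-Complex.I * (1 * Complex.I * Complex.exp (1 * θ * Complex.I)) -
        Complex.I / 12 * (3 * Complex.I * Complex.exp (3 * θ * Complex.I)) +
      Complex.I / 4 * (-1 * Complex.I * Complex.exp (-1 * θ * Complex.I))) θ := by
    rw [← hf]
    exact h
  convert! h' using 1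
  rw [rho_eq]
  have e1 : Complex.exp (3 * (θ:ℂ) * Complex.I) =
      Complex.exp (2 * θ * Complex.I) * Complex.exp (θ * Complex.I) := by
    rw [← Complex.exp_add]; congr 1; ring
  have e2 : Complex.exp (-1 * (θ:ℂ) * Complex.I) =
      Complex.exp (-2 * θ * Complex.I) * Complex.exp (θ * Complex.I) := by
    rw [← Complex.exp_add]; congr 1; ring
  rw [e1, e2]
  simp only [one_mul]
  have hI : Complex.I * Complex.I = -1 := Complex.I_mul_I
  linear_combination (Complex.exp (θ * Complex.I) +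
    1 / 4 * Complex.exp (2 * θ * Complex.I) * Complex.exp (θ * Complex.I) +
    1 / 4 * Complex.exp (-2 * θ * Complex.I) * Complex.exp (θ * Complex.I)) * hI

lemma Xc_periodic (θ : ℝ) : Xc (θ + 2 * π) = Xc θ := by
  unfold Xc
  push_cast
  have e1 : ((θ:ℂ) + 2 * π) * Complex.I = θ * Complex.I + 2 * π * Complex.I := by ring
  have e2 : 3 * ((θ:ℂ) + 2 * π) * Complex.I =
      3 * θ * Complex.I + (3 : ℕ) * (2 * π * Complex.I) := by push_cast; ring
  have e3 : -((θ:ℂ) + 2 * π) * Complex.I = -θ * Complex.I + (-1 : ℤ) * (2 * π * Complex.I) := by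
    push_cast; ring
  rw [e1, e2, e3, Complex.exp_add, Complex.exp_add, Complex.exp_add, Complex.exp_two_pi_mul_I,
    Complex.exp_nat_mul_two_pi_mul_I, Complex.exp_int_mul_two_pi_mul_I]
  ring

/-- the fundamental identity -/
lemma im_Xc (φ v : ℝ) :
    (Complex.exp (-(φ * Complex.I)) * (Xc (φ + v) - Xc φ)).im = P φ v := by
  have h1 : ∀ v, HasDerivAt (fun v : ℝ =>
      (Complex.exp (-(φ * Complex.I)) * (Xc (φ + v) - Xc φ)).im - P φ v) 0 v := by
    intro v
    have h2 : HasDerivAt (fun v : ℝ => Xc (φ + v))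
        ((rho (φ + v) : ℂ) * Complex.exp ((φ + v : ℝ) * Complex.I)) v := by
      have := (hasDerivAt_Xc (φ + v)).scomp v ((hasDerivAt_id v).const_add φ)
      rw [one_smul] at this
      exact this
    have h3 := (h2.sub_const (Xc φ)).const_mul (Complex.exp (-(φ * Complex.I)))
    have h4 := Complex.imCLM.hasFDerivAt.comp_hasDerivAt v h3
    have h5 := h4.sub (hasDerivAt_P φ v)
    have h6 : Complex.imCLM (Complex.exp (-(φ * Complex.I)) *
        ((rho (φ + v) : ℂ) * Complex.exp ((φ + v : ℝ) * Complex.I))) -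
        rho (φ + v) * Real.sin v = 0 := by
      have e1 : Complex.exp (-(φ * Complex.I)) *
        ((rho (φ + v) : ℂ) * Complex.exp ((φ + v : ℝ) * Complex.I)) =
        (rho (φ + v) : ℂ) * Complex.exp (v * Complex.I) := by
        have : Complex.exp ((φ + v : ℝ) * Complex.I) =
            Complex.exp (φ * Complex.I) * Complex.exp (v * Complex.I) := by
          rw [← Complex.exp_add]; congr 1; push_cast; ring
        rw [this]
        have e2 : Complex.exp (-(φ * Complex.I)) * Complex.exp (φ * Complex.I) = 1 := by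
          rw [← Complex.exp_add, neg_add_cancel, Complex.exp_zero]
        linear_combination (rho (φ + v) : ℂ) * Complex.exp (v * Complex.I) * e2
      rw [e1]
      rw [Complex.imCLM_apply, Complex.im_ofReal_mul, Complex.exp_ofReal_mul_I_im, sub_self]
    rw [h6] at h5
    exact h5
  have h2 := is_const_of_deriv_eq_zero (fun v => (h1 v).differentiableAt)
    (fun v => (h1 v).deriv) v 0
  simp only [add_zero, sub_self, mul_zero, Complex.zero_im, P_zero] at h2
  linarith

/-- arc length as a function of the tangent angle -/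
def Sarc (θ : ℝ) : ℝ := θ + 1 / 4 * Real.sin (2 * θ)

lemma hasDerivAt_Sarc (θ : ℝ) : HasDerivAt Sarc (rho θ) θ := by
  have h1 : HasDerivAt (fun θ : ℝ => Real.sin (2 * θ)) (Real.cos (2 * θ) * 2) θ :=
    (Real.hasDerivAt_sin (2 * θ)).comp θ (by simpa using (hasDerivAt_id θ).const_mul 2)
  have h2 := (hasDerivAt_id θ).add (h1.const_mul (1 / 4))
  have h3 : HasDerivAt Sarc _ θ := h2
  convert! h3 using 1
  unfold rho; ring

lemma contDiff_Sarc {n : WithTop ℕ∞} : ContDiff ℝ n Sarc :=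
  contDiff_id.add (contDiff_const.mul (Real.contDiff_sin.comp (contDiff_const.mul contDiff_id)))

lemma strictMono_Sarc : StrictMono Sarc :=
  strictMono_of_hasDerivAt_pos (f' := rho) hasDerivAt_Sarc rho_pos

lemma Sarc_add (θ : ℝ) (k : ℤ) : Sarc (θ + k * (2 * π)) = Sarc θ + k * (2 * π) := by
  unfold Sarc
  have : 2 * (θ + k * (2 * π)) = 2 * θ + ((2 * k : ℤ) : ℝ) * (2 * π) := by push_cast; ring
  rw [this, Real.sin_add_int_mul_two_pi]
  ring

lemma surjective_Sarc : Function.Surjective Sarc := by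
  have hc : Continuous Sarc := (contDiff_Sarc (n := 0)).continuous
  refine hc.surjective ?_ ?_
  · refine tendsto_atTop_mono (fun x => ?_) (tendsto_atTop_add_const_right atTop (-1) tendsto_id)
    unfold Sarc
    have := Real.neg_one_le_sin (2 * x)
    simp only [id]
    linarith
  · refine tendsto_atBot_mono (fun x => ?_) (tendsto_atBot_add_const_right atBot 1 tendsto_id)
    unfold Sarc
    have := Real.sin_le_one (2 * x)
    simp only [id]
    linarith

def SH : ℝ ≃ₜ ℝ := (StrictMono.orderIsoOfSurjective Sarc strictMono_Sarc surjective_Sarc).toHomeomorph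

lemma SH_apply (θ : ℝ) : SH θ = Sarc θ := rfl

/-- tangent angle as a function of arc length -/
def vt (s : ℝ) : ℝ := SH.symm s

lemma Sarc_vt (s : ℝ) : Sarc (vt s) = s := SH.apply_symm_apply s
lemma vt_Sarc (θ : ℝ) : vt (Sarc θ) = θ := SH.symm_apply_apply θ

lemma contDiff_vt : ContDiff ℝ ((⊤ : ℕ∞) : WithTop ℕ∞) vt :=
  SH.contDiff_symm_deriv (fun θ => (rho_pos θ).ne') (fun θ => hasDerivAt_Sarc θ) contDiff_Sarc

lemma strictMono_vt : StrictMono vt := by
  intro a b h
  rw [← strictMono_Sarc.lt_iff_lt, Sarc_vt, Sarc_vt]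
  exact h

lemma hasDerivAt_vt (s : ℝ) : HasDerivAt vt (rho (vt s))⁻¹ s := by
  have h1 : HasDerivAt vt (deriv vt s) s := (contDiff_vt.differentiable (by simp) s).hasDerivAt
  have h2 := (hasDerivAt_Sarc (vt s)).comp s h1
  have h3 : Sarc ∘ vt = id := by ext x; exact Sarc_vt x
  rw [h3] at h2
  have h4 := h2.unique (hasDerivAt_id s)
  have : deriv vt s = (rho (vt s))⁻¹ := eq_inv_of_mul_eq_one_right h4
  rwa [this] at h1

lemma vt_add (s : ℝ) (k : ℤ) : vt (s + k * (2 * π)) = vt s + k * (2 * π) := by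
  apply strictMono_Sarc.injective
  rw [Sarc_vt, Sarc_add, Sarc_vt]

/-- the curve parametrised by arc length -/
def gam (s : ℝ) : ℂ := Xc (vt s)

lemma hasDerivAt_gam (s : ℝ) : HasDerivAt gam (Complex.exp (vt s * Complex.I)) s := by
  have h := (hasDerivAt_Xc (vt s)).scomp s (hasDerivAt_vt s)
  have e : (rho (vt s))⁻¹ • ((rho (vt s) : ℂ) * Complex.exp (vt s * Complex.I)) =
      Complex.exp (vt s * Complex.I) := by
    rw [Complex.real_smul, ← mul_assoc, ← Complex.ofReal_mul, inv_mul_cancel₀ (rho_pos _).ne']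
    simp
  rw [e] at h
  exact h

lemma deriv_gam : deriv gam = fun s => Complex.exp (vt s * Complex.I) := by
  ext s; exact (hasDerivAt_gam s).deriv

lemma conj_exp (θ : ℝ) : conj (Complex.exp (θ * Complex.I)) = Complex.exp (-(θ * Complex.I)) := by
  rw [← Complex.exp_conj]
  simp

lemma cos_ne_one {θ θ' : ℝ} (h : ∀ k : ℤ, θ' ≠ θ + k * (2 * π)) : Real.cos (θ' - θ) ≠ 1 := by
  intro h1
  obtain ⟨k, hk⟩ := (Real.cos_eq_one_iff _).1 h1
  exact h k (by linarith)

lemma isOval_gam : IsOval gam (2 * π) where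
  pos := Real.two_pi_pos
  smooth := by
    have hX : ContDiff ℝ ((⊤ : ℕ∞) : WithTop ℕ∞) Xc := by
      unfold Xc
      have h1 : ContDiff ℝ ((⊤ : ℕ∞) : WithTop ℕ∞) (fun θ : ℝ => (θ : ℂ)) :=
        Complex.ofRealCLM.contDiff
      exact ((contDiff_const.mul (h1.mul contDiff_const).cexp).sub
        (contDiff_const.mul ((contDiff_const.mul h1).mul contDiff_const).cexp)).add
        (contDiff_const.mul (h1.neg.mul contDiff_const).cexp)
    exact hX.comp contDiff_vt
  periodic := by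
    intro s
    unfold gam
    have := vt_add s 1
    push_cast at this
    rw [one_mul] at this
    rw [this, Xc_periodic]
  unit_speed := by
    intro s
    rw [deriv_gam]
    exact Complex.norm_exp_ofReal_mul_I _
  convex := by
    intro s s' h
    rw [deriv_gam]
    simp only
    rw [conj_exp]
    unfold gam
    have e : Xc (vt s') = Xc (vt s + (vt s' - vt s)) := by congr 1; ring
    rw [e, im_Xc]
    apply P_pos
    apply cos_ne_one
    intro k hk
    apply h k
    rw [← Sarc_vt s', hk, Sarc_add, Sarc_vt]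
  curvature_pos := by
    intro s
    have h1 : HasDerivAt (deriv gam) (((rho (vt s))⁻¹ : ℝ) • (Complex.I *
        Complex.exp (vt s * Complex.I))) s := by
      rw [deriv_gam]
      have h2 := hasDerivAt_exp_mul 1 (vt s)
      have h3 := h2.scomp s (hasDerivAt_vt s)
      have e : (fun θ : ℝ => Complex.exp (1 * (θ:ℂ) * Complex.I)) ∘ vt =
          fun s => Complex.exp (vt s * Complex.I) := by
        ext s; simp
      rw [e, one_mul, one_mul] at h3
      exact h3
    rw [h1.deriv, deriv_gam]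
    simp only
    rw [conj_exp, Complex.real_smul]
    have e2 : Complex.exp (-(vt s * Complex.I)) * Complex.exp (vt s * Complex.I) = 1 := by
      rw [← Complex.exp_add, neg_add_cancel, Complex.exp_zero]
    have e3 : Complex.exp (-(vt s * Complex.I)) * (((rho (vt s))⁻¹ : ℝ) * (Complex.I *
        Complex.exp (vt s * Complex.I))) = (((rho (vt s))⁻¹ : ℝ) : ℂ) * Complex.I := by
      linear_combination (((rho (vt s))⁻¹ : ℝ) : ℂ) * Complex.I * e2
    rw [e3]
    have : 0 < (rho (vt s))⁻¹ := inv_pos.2 (rho_pos _)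
    simpa using this

/-! ### Chords -/

lemma chord_angle {s α s₁ α₁ : ℝ} (hα : α ∈ Ioo 0 π) (hα₁ : α₁ ∈ Ioo 0 π)
    (h : Chord gam (2 * π) s α s₁ α₁) :
    vt s₁ = vt s + α + α₁ ∧ P (vt s + α) α₁ = P (vt s + α) (-α) := by
  obtain ⟨h1, h2, ℓ, hℓ, h3, h4⟩ := h
  rw [deriv_gam] at h3 h4
  simp only at h3 h4
  have e1 : Complex.exp (α * Complex.I) * Complex.exp (vt s * Complex.I) =
      Complex.exp ((vt s + α : ℝ) * Complex.I) := by
    rw [← Complex.exp_add]; congr 1; push_cast; ring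
  have e2 : Complex.exp (-(α₁ * Complex.I)) * Complex.exp (vt s₁ * Complex.I) =
      Complex.exp ((vt s₁ - α₁ : ℝ) * Complex.I) := by
    rw [← Complex.exp_add]; congr 1; push_cast; ring
  rw [e1] at h3
  rw [e2] at h4
  have hℓ' : (ℓ : ℂ) ≠ 0 := by exact_mod_cast hℓ.ne'
  have h5 : Complex.exp ((vt s₁ - α₁ : ℝ) * Complex.I) = Complex.exp ((vt s + α : ℝ) * Complex.I) := by
    apply mul_left_cancel₀ hℓ'
    rw [← h3, ← h4]
  obtain ⟨k, hk⟩ := Complex.exp_eq_exp_iff_exists_int.1 h5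
  have hk' : vt s₁ - α₁ = vt s + α + k * (2 * π) := by
    have h6 : (((vt s₁ - α₁ : ℝ) : ℂ) - ((vt s + α : ℝ) : ℂ) - (k : ℂ) * (2 * π)) * Complex.I = 0 := by
      linear_combination hk
    have h7 := (mul_eq_zero.1 h6).resolve_right Complex.I_ne_zero
    have h8 : ((vt s₁ - α₁ - (vt s + α) - k * (2 * π) : ℝ) : ℂ) = 0 := by
      push_cast
      push_cast at h7
      linear_combination h7
    have h9 : vt s₁ - α₁ - (vt s + α) - k * (2 * π) = 0 := by exact_mod_cast h8
    linarith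
  have hv1 : vt s < vt s₁ := strictMono_vt h1
  have hv2 : vt s₁ < vt s + 2 * π := by
    have := strictMono_vt h2
    have e := vt_add s 1
    push_cast at e
    rw [one_mul] at e
    rwa [e] at this
  have hpi := Real.pi_pos
  have hk0 : k = 0 := by
    have l1 : ((-1 : ℤ) : ℝ) < k := by
      push_cast
      by_contra hc
      push Not at hc
      nlinarith [hα.1, hα.2, hα₁.1, hα₁.2]
    have l2 : (k : ℝ) < ((1 : ℤ) : ℝ) := by
      push_cast
      by_contra hc
      push Not at hc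
      nlinarith [hα.1, hα.2, hα₁.1, hα₁.2]
    have l1' : -1 < k := by exact_mod_cast l1
    have l2' : k < 1 := by exact_mod_cast l2
    omega
  rw [hk0, Int.cast_zero, zero_mul, add_zero] at hk'
  have hvt : vt s₁ = vt s + α + α₁ := by linarith
  refine ⟨hvt, ?_⟩
  have i1 := im_Xc (vt s + α) α₁
  have i2 := im_Xc (vt s + α) (-α)
  rw [← sub_eq_zero, ← i1, ← i2, ← Complex.sub_im, ← mul_sub]
  have e3 : Xc (vt s + α + α₁) - Xc (vt s + α) - (Xc (vt s + α + -α) - Xc (vt s + α)) =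
      ℓ * Complex.exp ((vt s + α : ℝ) * Complex.I) := by
    rw [← h3]
    unfold gam
    rw [hvt]
    have : vt s + α + -α = vt s := by ring
    rw [this]
    ring
  rw [e3]
  have e4 : Complex.exp (-((vt s + α : ℝ) * Complex.I)) *
      (ℓ * Complex.exp ((vt s + α : ℝ) * Complex.I)) = ℓ := by
    have : Complex.exp (-((vt s + α : ℝ) * Complex.I)) *
        Complex.exp ((vt s + α : ℝ) * Complex.I) = 1 := by
      rw [← Complex.exp_add, neg_add_cancel, Complex.exp_zero]
    linear_combination (ℓ : ℂ) * this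
  rw [e4]
  simp

lemma chord_of {φ α α₁ : ℝ} (hα : α ∈ Ioo 0 π) (hα₁ : α₁ ∈ Ioo 0 π)
    (h : P φ α₁ = P φ (-α)) : Chord gam (2 * π) (Sarc (φ - α)) α (Sarc (φ + α₁)) α₁ := by
  have hpi := Real.pi_pos
  refine ⟨strictMono_Sarc (by linarith [hα.1, hα₁.1]), ?_, ?_⟩
  · have := Sarc_add (φ - α) 1
    push_cast at this
    rw [one_mul] at this
    rw [← this]
    exact strictMono_Sarc (by linarith [hα.2, hα₁.2])
  set z : ℂ := Complex.exp (-(φ * Complex.I)) * (Xc (φ + α₁) - Xc (φ - α)) with hz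
  have him : z.im = 0 := by
    have i1 := im_Xc φ α₁
    have i2 := im_Xc φ (-α)
    have e : z = Complex.exp (-(φ * Complex.I)) * (Xc (φ + α₁) - Xc φ) -
        Complex.exp (-(φ * Complex.I)) * (Xc (φ + -α) - Xc φ) := by
      rw [hz, ← sub_eq_add_neg]; ring
    rw [e, Complex.sub_im, i1, i2, h, sub_self]
  have hzr : z = (z.re : ℂ) := by
    apply Complex.ext <;> simp [him]
  have hone : Complex.exp (φ * Complex.I) * Complex.exp (-(φ * Complex.I)) = 1 := by
    rw [← Complex.exp_add, add_neg_cancel, Complex.exp_zero]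
  have hX : Xc (φ + α₁) - Xc (φ - α) = z.re * Complex.exp (φ * Complex.I) := by
    rw [← hzr, hz]
    linear_combination -(Xc (φ + α₁) - Xc (φ - α)) * hone
  refine ⟨z.re, ?_, ?_, ?_⟩
  · have i3 := im_Xc (φ - α) (α + α₁)
    have e : φ - α + (α + α₁) = φ + α₁ := by ring
    rw [e, hX] at i3
    have e2 : Complex.exp (-((φ - α : ℝ) * Complex.I)) * (z.re * Complex.exp (φ * Complex.I)) =
        z.re * Complex.exp (α * Complex.I) := by
      have : Complex.exp (-((φ - α : ℝ) * Complex.I)) * Complex.exp (φ * Complex.I) =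
          Complex.exp (α * Complex.I) := by
        rw [← Complex.exp_add]; congr 1; push_cast; ring
      linear_combination (z.re : ℂ) * this
    rw [e2, Complex.im_ofReal_mul, Complex.exp_ofReal_mul_I_im] at i3
    have hpos : 0 < P (φ - α) (α + α₁) := by
      apply P_pos
      intro hc
      obtain ⟨k, hk⟩ := (Real.cos_eq_one_iff _).1 hc
      have l1 : ((0 : ℤ) : ℝ) < k := by
        push_cast
        by_contra hcc
        push Not at hcc
        nlinarith [hα.1, hα₁.1]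
      have l2 : (k : ℝ) < ((1 : ℤ) : ℝ) := by
        push_cast
        by_contra hcc
        push Not at hcc
        nlinarith [hα.2, hα₁.2]
      have l1' : 0 < k := by exact_mod_cast l1
      have l2' : k < 1 := by exact_mod_cast l2
      omega
    have hs := Real.sin_pos_of_mem_Ioo hα
    rw [← i3] at hpos
    exact (pos_iff_pos_of_mul_pos hpos).2 hs
  · rw [deriv_gam]
    simp only [gam, vt_Sarc]
    rw [hX]
    have : Complex.exp (α * Complex.I) * Complex.exp ((φ - α : ℝ) * Complex.I) =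
        Complex.exp (φ * Complex.I) := by
      rw [← Complex.exp_add]; congr 1; push_cast; ring
    rw [this]
  · rw [deriv_gam]
    simp only [gam, vt_Sarc]
    rw [hX]
    have : Complex.exp (-(α₁ * Complex.I)) * Complex.exp ((φ + α₁ : ℝ) * Complex.I) =
        Complex.exp (φ * Complex.I) := by
      rw [← Complex.exp_add]; congr 1; push_cast; ring
    rw [this]

lemma exists_beta {φ α : ℝ} (hα : α ∈ Ioo 0 π) : ∃ β ∈ Ioo 0 π, P φ β = P φ (-α) := by
  have hpi := Real.pi_pos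
  have h1 : P φ 0 < P φ (-α) := by
    rw [P_zero, P_neg, ← P_zero (-φ)]
    exact P_strictMono (-φ) ⟨le_rfl, hpi.le⟩ ⟨hα.1.le, hα.2.le⟩ hα.1
  have h2 : P φ (-α) < P φ π := by
    rw [P_neg, ← P_pi φ]
    exact P_strictMono (-φ) ⟨hα.1.le, hα.2.le⟩ ⟨hpi.le, le_rfl⟩ hα.2
  have hc : ContinuousOn (P φ) (Icc 0 π) := fun v _ =>
    (hasDerivAt_P φ v).continuousAt.continuousWithinAt
  obtain ⟨β, hβ, hβ2⟩ := intermediate_value_Ioo hpi.le hc ⟨h1, h2⟩
  exact ⟨β, hβ, hβ2⟩

/-- the outgoing angle -/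
def A1 (φ α : ℝ) : ℝ := if hα : α ∈ Ioo 0 π then (exists_beta (φ := φ) hα).choose else 0

lemma A1_mem {φ α : ℝ} (hα : α ∈ Ioo 0 π) : A1 φ α ∈ Ioo 0 π := by
  unfold A1; rw [dif_pos hα]; exact (exists_beta (φ := φ) hα).choose_spec.1

lemma P_A1 {φ α : ℝ} (hα : α ∈ Ioo 0 π) : P φ (A1 φ α) = P φ (-α) := by
  unfold A1; rw [dif_pos hα]; exact (exists_beta (φ := φ) hα).choose_spec.2

lemma A1_unique {φ α β : ℝ} (hα : α ∈ Ioo 0 π) (hβ : β ∈ Ioo 0 π) (h : P φ β = P φ (-α)) :
    A1 φ α = β := by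
  apply (P_strictMono φ).injOn ⟨(A1_mem hα).1.le, (A1_mem hα).2.le⟩ ⟨hβ.1.le, hβ.2.le⟩
  rw [P_A1 hα, h]

lemma continuous_A1 {X : Type*} [TopologicalSpace X] {φ α : X → ℝ} (hφ : Continuous φ)
    (hα : Continuous α) (hmem : ∀ x, α x ∈ Ioo 0 π) : Continuous fun x => A1 (φ x) (α x) := by
  rw [continuous_iff_continuousAt]
  intro x0
  have hA := A1_mem (φ := φ x0) (hmem x0)
  rw [ContinuousAt, tendsto_order]
  have hPc : ∀ v : ℝ, Continuous fun x => P (φ x) v := fun v =>
    Continuous.comp (g := fun q : ℝ × ℝ => P q.1 q.2) (f := fun x => (φ x, v)) continuous_P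
      (hφ.prodMk continuous_const)
  have hPc2 : Continuous fun x => P (φ x) (-α x) :=
    Continuous.comp (g := fun q : ℝ × ℝ => P q.1 q.2) (f := fun x => (φ x, -α x)) continuous_P
      (hφ.prodMk hα.neg)
  constructor
  · intro a ha
    -- choose a point between max a 0 and A1
    obtain ⟨b, hb1, hb2⟩ := exists_between (max_lt ha hA.1)
    have hb0 : 0 < b := lt_of_le_of_lt (le_max_right _ _) hb1
    have hbπ : b < π := hb2.trans hA.2
    have h1 : P (φ x0) b < P (φ x0) (-α x0) := by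
      rw [← P_A1 (hmem x0)]
      exact P_strictMono _ ⟨hb0.le, hbπ.le⟩ ⟨hA.1.le, hA.2.le⟩ hb2
    have h2 : ∀ᶠ x in 𝓝 x0, P (φ x) b < P (φ x) (-α x) :=
      (hPc b).continuousAt.eventually_lt hPc2.continuousAt h1
    filter_upwards [h2] with x hx
    have hAx := A1_mem (φ := φ x) (hmem x)
    rw [← P_A1 (hmem x)] at hx
    have := (P_strictMono (φ x)).lt_iff_lt ⟨hb0.le, hbπ.le⟩ ⟨hAx.1.le, hAx.2.le⟩ |>.1 hx
    exact lt_trans (lt_of_le_of_lt (le_max_left _ _) hb1) this
  · intro a ha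
    obtain ⟨b, hb1, hb2⟩ := exists_between (lt_min ha hA.2)
    have hbπ : b < π := lt_of_lt_of_le hb2 (min_le_right _ _)
    have hb0 : 0 < b := hA.1.trans hb1
    have h1 : P (φ x0) (-α x0) < P (φ x0) b := by
      rw [← P_A1 (hmem x0)]
      exact P_strictMono _ ⟨hA.1.le, hA.2.le⟩ ⟨hb0.le, hbπ.le⟩ hb1
    have h2 : ∀ᶠ x in 𝓝 x0, P (φ x) (-α x) < P (φ x) b :=
      hPc2.continuousAt.eventually_lt (hPc b).continuousAt h1
    filter_upwards [h2] with x hx
    have hAx := A1_mem (φ := φ x) (hmem x)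
    rw [← P_A1 (hmem x)] at hx
    have := (P_strictMono (φ x)).lt_iff_lt ⟨hAx.1.le, hAx.2.le⟩ ⟨hb0.le, hbπ.le⟩ |>.1 hx
    exact lt_of_lt_of_le (this.trans hb2) (min_le_left _ _)

/-! ### Existence of the coin map -/

lemma chord_shift {s α s₁ α₁ : ℝ} (k : ℤ) (h : Chord gam (2 * π) s α s₁ α₁) :
    Chord gam (2 * π) (s + k * (2 * π)) α (s₁ + k * (2 * π)) α₁ := by
  obtain ⟨h1, h2, ℓ, hℓ, h3, h4⟩ := h
  have hg : ∀ s, gam (s + k * (2 * π)) = gam s := by
    intro s
    unfold gam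
    rw [vt_add]
    have : Function.Periodic Xc (2 * π) := Xc_periodic
    exact this.int_mul k _
  have hd : ∀ s, deriv gam (s + k * (2 * π)) = deriv gam s := by
    intro s
    rw [deriv_gam]
    simp only
    rw [vt_add]
    push_cast
    have : ((vt s : ℂ) + k * (2 * π)) * Complex.I = vt s * Complex.I + k * (2 * π * Complex.I) := by
      ring
    rw [this, Complex.exp_add, Complex.exp_int_mul_two_pi_mul_I, mul_one]
  refine ⟨by linarith, by linarith, ℓ, hℓ, ?_, ?_⟩
  · rw [hg, hg, hd]; exact h3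
  · rw [hg, hg, hd]; exact h4

lemma coe_eq {p a b : ℝ} : ((a : AddCircle p) = (b : AddCircle p)) ↔ ∃ k : ℤ, a = b + k * p := by
  rw [QuotientAddGroup.eq_iff_sub_mem, AddSubgroup.mem_zmultiples_iff]
  constructor
  · rintro ⟨k, hk⟩
    refine ⟨k, ?_⟩
    rw [zsmul_eq_mul] at hk
    linarith
  · rintro ⟨k, hk⟩
    refine ⟨k, ?_⟩
    rw [zsmul_eq_mul]
    linarith

lemma exists_coinMap (d : ℝ) : ∃ T, IsCoinMap gam (2 * π) d T := by
  refine ⟨fun z => (((Sarc (vt (Quotient.out z.1) + z.2 + A1 (vt (Quotient.out z.1) + z.2) z.2) +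
    d * Real.cot (A1 (vt (Quotient.out z.1) + z.2) z.2) : ℝ) : AddCircle (2 * π)),
    ⟨A1 (vt (Quotient.out z.1) + z.2) z.2, A1_mem z.2.2⟩), ?_⟩
  intro s α
  set s0 : ℝ := Quotient.out (s : AddCircle (2 * π)) with hs0
  have h1 : (s0 : AddCircle (2 * π)) = (s : AddCircle (2 * π)) := Quotient.out_eq' _
  obtain ⟨k, hk⟩ : ∃ k : ℤ, s = s0 + k * (2 * π) := coe_eq.1 h1.symm
  set φ : ℝ := vt s0 + α with hφ
  set β : ℝ := A1 φ α with hβ
  have hc := chord_of (φ := φ) α.2 (A1_mem α.2) (P_A1 α.2)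
  have e0 : φ - α = vt s0 := by rw [hφ]; ring
  rw [e0, Sarc_vt] at hc
  have hc2 := chord_shift k hc
  rw [← hk] at hc2
  refine ⟨Sarc (φ + A1 φ α) + k * (2 * π), ⟨A1 φ α, A1_mem α.2⟩, hc2, ?_⟩
  simp only
  refine Prod.ext ?_ rfl
  simp only
  rw [coe_eq]
  refine ⟨-k, ?_⟩
  push_cast
  ring

/-! ### Topology of the phase cylinder -/

lemma surj_of_not_null {L : ℝ} (hL : 0 < L) (c : C(UnitAddCircle, Phase L))
    (h : ¬ c.Nullhomotopic) (x0 : AddCircle L) : ∃ z, (c z).1 = x0 := by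
  by_contra hcon
  push Not at hcon
  apply h
  have : Fact (0 < L) := ⟨hL⟩
  obtain ⟨a, ha⟩ : ∃ a : ℝ, (a : AddCircle L) = x0 := QuotientAddGroup.mk_surjective x0
  set Ho := AddCircle.openPartialHomeomorphCoe L a with hHo
  have hmem : ∀ z, (c z).1 ∈ Ho.target := by
    intro z
    rw [hHo]
    simp only [AddCircle.openPartialHomeomorphCoe_target, mem_compl_iff, mem_singleton_iff]
    rw [ha]
    exact hcon z
  have hc1 : Continuous fun z => (c z).1 := continuous_fst.comp c.continuous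
  have hr : Continuous fun z => Ho.symm (c z).1 :=
    Ho.continuousOn_symm.comp_continuous hc1 hmem
  let hh : C(UnitAddCircle, ℝ × Ioo (0:ℝ) π) :=
    ⟨fun z => (Ho.symm (c z).1, (c z).2), hr.prodMk (continuous_snd.comp c.continuous)⟩
  let q : C(ℝ × Ioo (0:ℝ) π, Phase L) :=
    ⟨fun z => ((z.1 : AddCircle L), z.2),
      ((AddCircle.continuous_mk' L).comp continuous_fst).prodMk continuous_snd⟩
  have hcq : c = q.comp hh := by
    ext1 z
    refine Prod.ext ?_ rfl
    have := Ho.right_inv (hmem z)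
    exact this.symm
  have : ContractibleSpace (Ioo (0:ℝ) π) :=
    (convex_Ioo 0 π).contractibleSpace ⟨π / 2, by constructor <;> linarith [Real.pi_pos]⟩
  have h1 : (ContinuousMap.id (ℝ × Ioo (0:ℝ) π)).Nullhomotopic := id_nullhomotopic _
  have h2 := (h1.comp_right q).comp_left hh
  rw [ContinuousMap.comp_id] at h2
  rw [hcq]
  exact h2

lemma cot_dist {x y : ℝ} (hx : x ∈ Ioo 0 π) (hy : y ∈ Ioo 0 π) (hxy : x ≤ y) :
    y - x ≤ Real.cot x - Real.cot y := by
  have hmono : MonotoneOn (fun v => -Real.cot v - v) (Ioo 0 π) := by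
    have hder : ∀ v ∈ Ioo 0 π, HasDerivAt (fun v => -Real.cot v - v)
        (1 / Real.sin v ^ 2 - 1) v := by
      intro v hv
      have hsv := Real.sin_pos_of_mem_Ioo hv
      have h1 := ((hasDerivAt_cot hsv.ne').neg).sub (hasDerivAt_id v)
      rw [neg_neg] at h1
      exact h1
    refine monotoneOn_of_deriv_nonneg (convex_Ioo 0 π)
      (fun v hv => (hder v hv).continuousAt.continuousWithinAt)
      (fun v hv => ((hder v (interior_subset hv)).differentiableAt).differentiableWithinAt) ?_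
    intro v hv
    have hv2 := interior_subset hv
    rw [(hder v hv2).deriv]
    have hsv := Real.sin_pos_of_mem_Ioo hv2
    have h1 : (1:ℝ) ≤ 1 / Real.sin v ^ 2 := by
      rw [le_div_iff₀ (by positivity), one_mul]
      nlinarith [Real.sin_le_one v]
    linarith
  have := hmono hx hy hxy
  simp only at this
  linarith

lemma abs_sub_le_cot {x y δ : ℝ} (hx : x ∈ Ioo 0 π) (hy : y ∈ Ioo 0 π)
    (h : |Real.cot x - Real.cot y| ≤ δ) : |x - y| ≤ δ := by
  rcases le_total x y with hxy | hxy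
  · have h1 := cot_dist hx hy hxy
    rw [abs_sub_comm, abs_of_nonneg (by linarith)]
    exact h1.trans ((le_abs_self _).trans h)
  · have h1 := cot_dist hy hx hxy
    rw [abs_of_nonneg (by linarith)]
    rw [abs_sub_comm] at h
    exact h1.trans ((le_abs_self _).trans h)

lemma first_hit {f : ℝ → ℝ} (hf : Continuous f) {v : ℝ} (h0 : v ≤ f 0) (h1 : f 1 ≤ v) :
    ∃ r ∈ Icc (0:ℝ) 1, f r = v ∧ ∀ x ∈ Icc 0 r, v ≤ f x := by
  set A : Set ℝ := {r | r ∈ Icc (0:ℝ) 1 ∧ f r ≤ v} with hA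
  have hAc : IsCompact A := by
    have : A = Icc 0 1 ∩ {r | f r ≤ v} := rfl
    rw [this]
    exact isCompact_Icc.inter_right (isClosed_le hf continuous_const)
  have hAne : A.Nonempty := ⟨1, ⟨zero_le_one, le_rfl⟩, h1⟩
  obtain ⟨r, hrA, hr⟩ := hAc.exists_isLeast hAne
  have hfr : f r = v := by
    obtain ⟨x, hx, hfx⟩ := intermediate_value_Icc' hrA.1.1 hf.continuousOn ⟨hrA.2, h0⟩
    have h2 : r ≤ x := hr ⟨⟨hx.1, hx.2.trans hrA.1.2⟩, hfx.le⟩
    rw [le_antisymm h2 hx.2]
    exact hfx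
  refine ⟨r, hrA.1, hfr, fun x hx => ?_⟩
  by_contra hcon
  push Not at hcon
  have h2 : r ≤ x := hr ⟨⟨hx.1, hx.2.trans hrA.1.2⟩, hcon.le⟩
  have h3 : x = r := le_antisymm hx.2 h2
  rw [h3, hfr] at hcon
  exact lt_irrefl _ hcon

lemma cover {f : ℝ → ℝ} (hf : Continuous f) {r : ℝ} (hr : 0 ≤ r) (h : 2 * π ≤ |f r - f 0|)
    (x : ℝ) : ∃ y ∈ Icc 0 r, ∃ k : ℤ, f y = x + k * (2 * π) := by
  have hpi := Real.pi_pos
  set lo := min (f 0) (f r) with hlo
  set k : ℤ := ⌈(lo - x) / (2 * π)⌉ with hk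
  have h1 : lo ≤ x + k * (2 * π) := by
    have := Int.le_ceil ((lo - x) / (2 * π))
    rw [div_le_iff₀ (by positivity)] at this
    linarith
  have h2 : x + k * (2 * π) < lo + 2 * π := by
    have := Int.ceil_lt_add_one ((lo - x) / (2 * π))
    rw [← hk] at this
    have h3 : ((k:ℝ) - 1) * (2 * π) < lo - x := by
      rw [← lt_div_iff₀ (by positivity)]
      linarith
    linarith
  rcases le_total (f 0) (f r) with hc | hc
  · rw [abs_of_nonneg (by linarith)] at h
    rw [min_eq_left hc] at hlo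
    obtain ⟨y, hy, hfy⟩ := intermediate_value_Icc hr hf.continuousOn
      (show x + k * (2 * π) ∈ Icc (f 0) (f r) from ⟨by linarith, by linarith⟩)
    exact ⟨y, hy, k, hfy⟩
  · rw [abs_of_nonpos (by linarith)] at h
    rw [min_eq_right hc] at hlo
    obtain ⟨y, hy, hfy⟩ := intermediate_value_Icc' hr hf.continuousOn
      (show x + k * (2 * π) ∈ Icc (f r) (f 0) from ⟨by linarith, by linarith⟩)
    exact ⟨y, hy, k, hfy⟩

/-! ### The main argument -/

theorem no_curve {d : ℝ} (hd : 100 ≤ d) {T : Phase (2 * π) → Phase (2 * π)}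
    (hT : IsCoinMap gam (2 * π) d T) (Γ : Set (Phase (2 * π))) :
    ¬ IsRotationalInvariantCurve T Γ := by
  rintro ⟨⟨c, _, hnull, hrange⟩, hinv⟩
  have hpi := Real.pi_pos
  have hpi2 := Real.pi_lt_d2
  have hd0 : 0 < d := by linarith
  set δ : ℝ := 4 * π / d with hδ
  have hδ0 : 0 < δ := by positivity
  have hδ1 : δ < 7 / 50 := by
    rw [hδ, div_lt_iff₀ hd0]; linarith
  have hδd : d * δ = 4 * π := by rw [hδ]; field_simp
  -- the path and its lift
  have he : Continuous fun t : unitInterval => ((t : ℝ) : UnitAddCircle) :=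
    (AddCircle.continuous_mk' 1).comp continuous_subtype_val
  let p : C(unitInterval, Phase (2 * π)) :=
    ⟨fun t => c ((t : ℝ) : UnitAddCircle), c.continuous.comp he⟩
  have hpΓ : ∀ t, p t ∈ Γ := fun t => hrange ▸ ⟨_, rfl⟩
  have hΓp : ∀ z ∈ Γ, ∃ t, p t = z := by
    intro z hz
    rw [← hrange] at hz
    obtain ⟨y, rfl⟩ := hz
    have h1 : y ∈ ((↑) : ℝ → UnitAddCircle) '' Ico (0:ℝ) (0 + 1) := by
      rw [AddCircle.coe_image_Ico_eq]; trivial
    obtain ⟨r, hr, rfl⟩ := h1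
    exact ⟨⟨r, hr.1, by linarith [hr.2]⟩, rfl⟩
  let p1 : C(unitInterval, AddCircle (2 * π)) := ⟨fun t => (p t).1,
    continuous_fst.comp p.continuous⟩
  obtain ⟨e0, he0⟩ : ∃ e0 : ℝ, p1 0 = ((e0 : ℝ) : AddCircle (2 * π)) := by
    obtain ⟨a, ha⟩ := QuotientAddGroup.mk_surjective (p1 0)
    exact ⟨a, ha.symm⟩
  have : Fact (0 < 2 * π) := ⟨Real.two_pi_pos⟩
  obtain ⟨st, hst, _⟩ := (AddCircle.isCoveringMap_coe (2 * π)).exists_path_lifts p1 e0 he0
  have hst' : ∀ t, ((st t : ℝ) : AddCircle (2 * π)) = (p t).1 := fun t => congrFun hst t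
  -- everything as a function of a real parameter
  set pr : ℝ → unitInterval := projIcc 0 1 zero_le_one with hpr
  have hprc : Continuous pr := continuous_projIcc
  set S : ℝ → ℝ := fun r => st (pr r) with hS
  set al : ℝ → ℝ := fun r => ((p (pr r)).2 : ℝ) with hal
  have hSc : Continuous S := st.continuous.comp hprc
  have halc : Continuous al :=
    continuous_subtype_val.comp (continuous_snd.comp (p.continuous.comp hprc))
  have halm : ∀ r, al r ∈ Ioo 0 π := fun r => (p (pr r)).2.2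
  set ph : ℝ → ℝ := fun r => vt (S r) + al r with hph
  have hphc : Continuous ph := (contDiff_vt.continuous.comp hSc).add halc
  set be : ℝ → ℝ := fun r => A1 (ph r) (al r) with hbe
  have hbec : Continuous be := continuous_A1 hphc halc halm
  have hbem : ∀ r, be r ∈ Ioo 0 π := fun r => A1_mem (halm r)
  have hPbe : ∀ r, P (ph r) (be r) = P (ph r) (-al r) := fun r => P_A1 (halm r)
  set s1 : ℝ → ℝ := fun r => Sarc (ph r + be r) with hs1
  have hs1c : Continuous s1 := (contDiff_Sarc (n := 0)).continuous.comp (hphc.add hbec)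
  set J : ℝ → ℝ := fun r => Real.cot (al r) with hJ
  set J1 : ℝ → ℝ := fun r => Real.cot (be r) with hJ1
  have hcotc : ∀ {f : ℝ → ℝ}, Continuous f → (∀ r, f r ∈ Ioo 0 π) →
      Continuous fun r => Real.cot (f r) := by
    intro f hf hm
    rw [continuous_iff_continuousAt]
    intro r
    exact ContinuousAt.comp (g := Real.cot)
      (hasDerivAt_cot (Real.sin_pos_of_mem_Ioo (hm r)).ne').continuousAt hf.continuousAt
  have hJc : Continuous J := hcotc halc halm
  have hJ1c : Continuous J1 := hcotc hbec hbem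
  -- the action of T
  have hTp : ∀ r, T (p (pr r)) = (((s1 r + d * J1 r : ℝ) : AddCircle (2 * π)), ⟨be r, hbem r⟩) := by
    intro r
    obtain ⟨s', β, hch, hT'⟩ := hT (S r) (p (pr r)).2
    have e1 : (((S r : ℝ) : AddCircle (2 * π)), (p (pr r)).2) = p (pr r) :=
      Prod.ext (hst' (pr r)) rfl
    rw [e1] at hT'
    obtain ⟨h1, h2⟩ := chord_angle (halm r) β.2 hch
    have h3 : be r = β := A1_unique (halm r) β.2 h2
    have h4 : s' = s1 r := by
      rw [hs1]
      simp only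
      rw [h3, ← Sarc_vt s', h1]
    rw [hT', h4]
    refine Prod.ext ?_ (Subtype.ext h3.symm)
    simp only
    rw [hJ1]
    simp only
    rw [h3]
  -- each point of Γ is hit
  have hΓr : ∀ z ∈ Γ, ∃ r ∈ Icc (0:ℝ) 1, p (pr r) = z := by
    intro z hz
    obtain ⟨t, ht⟩ := hΓp z hz
    refine ⟨t, t.2, ?_⟩
    rw [hpr, projIcc_of_mem zero_le_one t.2]
    exact ht
  have himg : ∀ r, ∃ r', J r' = J1 r ∧ al r' = be r ∧
      ((S r' : ℝ) : AddCircle (2 * π)) = ((s1 r + d * J1 r : ℝ) : AddCircle (2 * π)) := by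
    intro r
    have h1 : T (p (pr r)) ∈ Γ := hinv ▸ ⟨_, hpΓ _, rfl⟩
    obtain ⟨r', _, hr'⟩ := hΓr _ h1
    rw [hTp] at hr'
    have h2 : al r' = be r := by
      rw [hal]; simp only; rw [hr']
    refine ⟨r', ?_, h2, ?_⟩
    · rw [hJ, hJ1]; simp only; rw [h2]
    · rw [hS]; simp only; rw [hst', hr']
  have hpre : ∀ r, ∃ r' ∈ Icc (0:ℝ) 1, J1 r' = J r := by
    intro r
    have h1 : p (pr r) ∈ T '' Γ := by rw [hinv]; exact hpΓ _
    obtain ⟨z, hz, hTz⟩ := h1
    obtain ⟨r', hr'm, rfl⟩ := hΓr z hz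
    rw [hTp] at hTz
    refine ⟨r', hr'm, ?_⟩
    have h2 : be r' = al r := by
      rw [hal]; simp only; rw [← hTz]
    rw [hJ, hJ1]; simp only; rw [h2]
  -- extreme values
  have hproj : ∀ r, ∃ r' ∈ Icc (0:ℝ) 1, pr r' = pr r := by
    intro r
    refine ⟨pr r, (pr r).2, ?_⟩
    rw [hpr]
    exact projIcc_val zero_le_one _
  obtain ⟨tm, _, htm⟩ := isCompact_Icc.exists_isMaxOn (s := Icc (0:ℝ) 1)
    ⟨0, le_rfl, zero_le_one⟩ hJc.continuousOn
  obtain ⟨tn, _, htn⟩ := isCompact_Icc.exists_isMinOn (s := Icc (0:ℝ) 1)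
    ⟨0, le_rfl, zero_le_one⟩ hJc.continuousOn
  set b : ℝ := J tm with hb
  set a : ℝ := J tn with ha
  have hJpr : ∀ r r', pr r' = pr r → J r' = J r := by
    intro r r' h
    rw [hJ, hal]; simp only; rw [h]
  have hJle : ∀ r, J r ≤ b := by
    intro r
    obtain ⟨r', hr', h1⟩ := hproj r
    rw [← hJpr r r' h1]
    exact htm hr'
  have hJge : ∀ r, a ≤ J r := by
    intro r
    obtain ⟨r', hr', h1⟩ := hproj r
    rw [← hJpr r r' h1]
    exact htn hr'
  have hJ1le : ∀ r, J1 r ≤ b := fun r => by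
    obtain ⟨r', h1, _⟩ := himg r
    rw [← h1]; exact hJle r'
  obtain ⟨tb, _, htb⟩ := hpre tm
  obtain ⟨ta, _, hta⟩ := hpre tn
  set αb : ℝ := al tm with hαb
  have hαbm : αb ∈ Ioo 0 π := halm tm
  -- cosine bound
  have hcosb : ∀ x ∈ Ioo 0 π, b - δ ≤ Real.cot x → Real.cot x ≤ b →
      1 / 2 ≤ Real.cos (2 * (x - αb)) := by
    intro x hx h1 h2
    have h3 : |Real.cot x - Real.cot αb| ≤ δ := by
      rw [abs_le]
      have : Real.cot αb = b := rfl
      rw [this]
      constructor <;> linarith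
    have h4 := abs_sub_le_cot hx hαbm h3
    have h5 := Real.one_sub_sq_div_two_le_cos (x := 2 * (x - αb))
    have h6 : (x - αb) ^ 2 ≤ (7 / 50) ^ 2 := by
      rw [sq_le_sq, abs_of_pos (by norm_num : (0:ℝ) < 7 / 50)]
      linarith
    nlinarith
  -- first impossibility
  have K1 : ∀ r, ((S r : ℝ) : AddCircle (2 * π)) =
      ((Sarc (-(π / 4) - αb) : ℝ) : AddCircle (2 * π)) → b - δ ≤ J r → False := by
    intro r h1 h2
    obtain ⟨k, hk⟩ := coe_eq.1 h1
    have h3 : vt (S r) = -(π / 4) - αb + k * (2 * π) := by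
      rw [hk, vt_add, vt_Sarc]
    have h4 := hcosb (al r) (halm r) h2 (hJle r)
    have h5 : Real.sin (2 * ph r) = -Real.cos (2 * (al r - αb)) := by
      have e : 2 * ph r = 2 * (al r - αb) - π / 2 + ((2 * k : ℤ) : ℝ) * (2 * π) := by
        rw [hph]; simp only; rw [h3]; push_cast; ring
      rw [e, Real.sin_add_int_mul_two_pi, Real.sin_sub_pi_div_two]
    have h6 := kick (halm r) (hbem r) (hPbe r) (by rw [h5]; linarith)
    have h7 := hJ1le r
    have h8 : J r + 7 / 50 ≤ J1 r := h6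
    linarith
  have K2 : ∀ r, ∀ k : ℤ, s1 r = Sarc (π / 4 + αb) + k * (2 * π) → b - δ ≤ J1 r → False := by
    intro r k h1 h2
    have h3 : ph r + be r = π / 4 + αb + k * (2 * π) := by
      apply strictMono_Sarc.injective
      rw [Sarc_add]
      exact h1
    have h4 := hcosb (be r) (hbem r) h2 (hJ1le r)
    have h5 : Real.sin (2 * ph r) = Real.cos (2 * (be r - αb)) := by
      have e : 2 * ph r = π / 2 - 2 * (be r - αb) + ((2 * k : ℤ) : ℝ) * (2 * π) := by
        have : ph r = π / 4 + αb + k * (2 * π) - be r := by linarith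
        rw [this]; push_cast; ring
      rw [e, Real.sin_add_int_mul_two_pi, Real.sin_pi_div_two_sub]
    have h6 := kick' (halm r) (hbem r) (hPbe r) (by rw [h5]; exact h4)
    have h7 := hJle r
    have h8 : J1 r + 7 / 50 ≤ J r := h6
    linarith
  by_cases hcase : b - δ < a
  · -- Γ is nearly horizontal
    obtain ⟨z, hz⟩ := surj_of_not_null Real.two_pi_pos c hnull
      ((Sarc (-(π / 4) - αb) : ℝ) : AddCircle (2 * π))
    obtain ⟨r, _, hr⟩ := hΓr (c z) (hrange ▸ ⟨z, rfl⟩)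
    refine K1 r ?_ (hcase.le.trans (hJge r))
    rw [← hz, ← hr]
    exact hst' (pr r)
  · push Not at hcase
    -- the arc of T₁ Γ from height b to height b - δ
    set w : ℝ → ℝ := fun r => tb + r * (ta - tb) with hw
    have hwc : Continuous w := by rw [hw]; fun_prop
    have hw0 : w 0 = tb := by rw [hw]; simp
    have hw1 : w 1 = ta := by rw [hw]; simp
    obtain ⟨r, hr, hfr, hfx⟩ := first_hit (f := fun r => J1 (w r)) (v := b - δ) (hJ1c.comp hwc)
      (by show b - δ ≤ J1 (w 0); rw [hw0, htb]; linarith) (by show J1 (w 1) ≤ b - δ; rw [hw1, hta]; exact hcase)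
    by_cases hbig : 2 * π ≤ |s1 (w r) - s1 (w 0)|
    · obtain ⟨y, hy, k, hk⟩ := cover (f := fun r => s1 (w r)) (hs1c.comp hwc) hr.1 hbig
        (Sarc (π / 4 + αb))
      exact K2 (w y) k hk (hfx y hy)
    · push Not at hbig
      have hbig2 : 2 * π ≤ |(s1 (w r) + d * J1 (w r)) - (s1 (w 0) + d * J1 (w 0))| := by
        have e : (s1 (w r) + d * J1 (w r)) - (s1 (w 0) + d * J1 (w 0)) =
            (s1 (w r) - s1 (w 0)) - 4 * π := by
          rw [hfr, hw0, htb, ← hδd]; ring
        rw [e]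
        have := (abs_lt.1 hbig).2
        rw [abs_of_nonpos (by linarith)]
        linarith
      obtain ⟨y, hy, k, hk⟩ := cover (f := fun r => s1 (w r) + d * J1 (w r))
        ((hs1c.comp hwc).add ((hJ1c.comp hwc).const_mul d)) hr.1 hbig2 (Sarc (-(π / 4) - αb))
      obtain ⟨r', h1, h2, h3⟩ := himg (w y)
      refine K1 r' ?_ (by rw [h1]; exact hfx y hy)
      rw [h3]
      exact coe_eq.2 ⟨k, hk⟩

/-! ### The two parts of the question -/

/-- Part (a): for every oval and every height the coin map has a rotational invariant curve. -/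
def PartA : Prop :=
  ∀ (γ : ℝ → ℂ) (L : ℝ), IsOval γ L → ∀ d : ℝ, 0 < d →
    ∀ T, IsCoinMap γ L d T → ∃ Γ, IsRotationalInvariantCurve T Γ

/-- Part (b): every neighbourhood of each of the two boundary circles contains a rotational
invariant curve. -/
def PartB : Prop :=
  ∀ (γ : ℝ → ℂ) (L : ℝ), IsOval γ L → ∀ d : ℝ, 0 < d →
    ∀ T, IsCoinMap γ L d T → ∀ ε : ℝ, 0 < ε →
      (∃ Γ, IsRotationalInvariantCurve T Γ ∧ ∀ z ∈ Γ, ((z.2 : ℝ)) < ε) ∧
      (∃ Γ, IsRotationalInvariantCurve T Γ ∧ ∀ z ∈ Γ, π - ε < ((z.2 : ℝ)))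

/-- There is an oval (with positive curvature) for which, for every height `d ≥ 100`, the coin map
has no rotational invariant curve whatsoever.  In particular both (a) and (b) are false. -/
theorem result :
    (∃ (γ : ℝ → ℂ) (L : ℝ), IsOval γ L ∧ ∀ d : ℝ, 100 ≤ d →
      (∃ T, IsCoinMap γ L d T) ∧
      ∀ T, IsCoinMap γ L d T → ∀ Γ, ¬ IsRotationalInvariantCurve T Γ) ∧
    ¬ PartA ∧ ¬ PartB := by
  refine ⟨⟨gam, 2 * π, isOval_gam, fun d hd => ⟨exists_coinMap d, fun T hT Γ =>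
    no_curve hd hT Γ⟩⟩, ?_, ?_⟩
  · intro hA
    obtain ⟨T, hT⟩ := exists_coinMap 100
    obtain ⟨Γ, hΓ⟩ := hA gam (2 * π) isOval_gam 100 (by norm_num) T hT
    exact no_curve le_rfl hT Γ hΓ
  · intro hB
    obtain ⟨T, hT⟩ := exists_coinMap 100
    obtain ⟨⟨Γ, hΓ, _⟩, _⟩ := hB gam (2 * π) isOval_gam 100 (by norm_num) T hT 1 one_pos
    exact no_curve le_rfl hT Γ hΓ

end

end Pool.Agent.Results.MP_5d0005_an.NoCurve
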